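import Pool.Agent.L0h87.LE.StmB

/-!
# Project LE (helper87), module REP (by helper85)
-/

set_option autoImplicit false

namespace Pool.Agent.L0h85.LE

open Finset Pool.Agent.L0h87.LE

theorem rep_prod (N n : ℕ) (u v : ℕ → ℝ) : rep N n u v =
    ∑ p ∈ odds N ×ˢ odds N, if p.1 + p.2 = n then u p.1 * v p.2 else 0 := by
  unfold rep
  rw [Finset.sum_product]

theorem odds_le {N m : ℕ} (h : m ∈ odds N) : m ≤ N := by
  unfold odds at h
  exact (Finset.mem_Icc.1 (Finset.mem_filter.1 h).1).2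

theorem REP : Pool.Agent.L0h87.LE.REP := by
  intro N u v w z
  have hR : ∑ n ∈ range (2 * N + 1), rep N n u v * rep N n w z =
      ∑ p ∈ odds N ×ˢ odds N, ∑ q ∈ odds N ×ˢ odds N,
        if p.1 + p.2 = q.1 + q.2 then u p.1 * v p.2 * (w q.1 * z q.2) else 0 := by
    simp only [rep_prod, Finset.sum_mul_sum]
    rw [Finset.sum_comm]
    refine Finset.sum_congr rfl fun p hp => ?_
    rw [Finset.sum_comm]
    refine Finset.sum_congr rfl fun q hq => ?_
    obtain ⟨hp1, hp2⟩ := Finset.mem_product.1 hp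
    have h1 := odds_le hp1
    have h2 := odds_le hp2
    rw [Finset.sum_eq_single (p.1 + p.2)]
    · rw [if_pos rfl]
      by_cases h : p.1 + p.2 = q.1 + q.2
      · rw [if_pos h, if_pos h.symm]
      · rw [if_neg h, if_neg (fun h' => h h'.symm), mul_zero]
    · intro n _ hn
      rw [if_neg (fun h => hn h.symm), zero_mul]
    · intro h
      exact absurd (Finset.mem_range.2 (by omega)) h
  rw [hR]
  unfold G
  rw [Finset.sum_filter, ← Finset.sum_product']
  refine Finset.sum_nbij' (fun m => ((m 0, m 1), (m 2, m 3)))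
    (fun p => ![p.1.1, p.1.2, p.2.1, p.2.2]) ?_ ?_ ?_ ?_ ?_
  · intro m hm
    rw [Fintype.mem_piFinset] at hm
    exact Finset.mem_product.2 ⟨Finset.mem_product.2 ⟨hm 0, hm 1⟩, Finset.mem_product.2 ⟨hm 2, hm 3⟩⟩
  · intro p hp
    obtain ⟨h1, h2⟩ := Finset.mem_product.1 hp
    obtain ⟨h3, h4⟩ := Finset.mem_product.1 h1
    obtain ⟨h5, h6⟩ := Finset.mem_product.1 h2
    rw [Fintype.mem_piFinset]
    intro i
    fin_cases i
    · exact h3
    · exact h4
    · exact h5
    · exact h6
  · intro m _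
    funext i
    fin_cases i <;> rfl
  · intro p _
    rfl
  · intro m _
    have e1 : (∑ i, (![1, 1, -1, -1] : Fin 4 → ℤ) i * (m i : ℤ) = 0) ↔ m 0 + m 1 = m 2 + m 3 := by
      rw [Fin.sum_univ_four]
      simp only [Matrix.cons_val]
      omega
    have e2 : ∏ i, (![u, v, w, z] : Fin 4 → ℕ → ℝ) i (m i) =
        u (m 0) * v (m 1) * (w (m 2) * z (m 3)) := by
      rw [Fin.prod_univ_four]
      simp only [Matrix.cons_val]
      ring
    simp only [e1, e2]

end Pool.Agent.L0h85.LE
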